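import Pool.Agent.H78R2.Phil.Main

/-!
Which exponents `B` are possible in Philippon's conjecture: `B = 1, 2` are impossible, and under
the abc conjecture every `B ≥ 3` is possible.
-/

namespace Pool.Agent.Results.MP_05f553_nt.SmallB

open Pool.Agent.H78R2.Phil

/-- The inequality of Q1 holds for this `B` with some constants `ε ∈ (0, 1/2)`, `α ≥ 1`,
`β ≥ 0`. -/
def Admissible (B : ℕ) : Prop :=
  ∃ ε α β : ℝ, 0 < ε ∧ ε < 1 / 2 ∧ 1 ≤ α ∧ 0 ≤ β ∧
    ∀ x y : ℚ, x ≠ 0 → y ≠ 0 → x * y ^ B ≠ 1 → x * y ^ B + 1 ≠ 0 →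
      -(∑ᶠ p ∈ {p : ℕ | p.Prime ∧ padicNorm p (x * y ^ B + 1) < 1},
          Real.log ((padicNorm p (x * y ^ B + 1) : ℚ) : ℝ))
        ≤ (B : ℝ) * (α * Real.log (max |(x.num : ℝ)| (x.den : ℝ))
            + ε * Real.log (max |(y.num : ℝ)| (y.den : ℝ))
            + (α * (B : ℝ) + ε) *
                (β + ∑ᶠ p ∈ {p : ℕ | p.Prime ∧ padicNorm p (x * y ^ B + 1) < 1},
                  Real.log (p : ℝ)))

/-- The abc conjecture, `R(n)` being the product of the primes dividing `n`. -/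
def Abc : Prop :=
  ∀ δ : ℝ, 0 < δ → ∃ κ : ℝ, ∀ a b c : ℕ, 0 < a → 0 < b → Nat.Coprime a b → a + b = c →
    (c : ℝ) ≤ κ * ((∏ p ∈ (a * b * c).primeFactors, p : ℕ) : ℝ) ^ (1 + δ)

theorem result : (∀ B : ℕ, 0 < B → Admissible B → 3 ≤ B) ∧
    (Abc → ∀ B : ℕ, 3 ≤ B → Admissible B) := by
  constructor
  · rintro B hB ⟨ε, α, β, hε, hε1, -, -, h⟩
    by_contra hB3
    exact not_ineq hε (by linarith) hB (by omega) h
  · intro habc B hB
    obtain ⟨κ, h⟩ := habc (1 / 4) (by norm_num)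
    have h' : AbcWith (5 / 4) (max κ 1) := by
      intro a b c ha hb hab hc
      have h1 := h a b c ha hb hab hc
      rw [show (1 : ℝ) + 1 / 4 = 5 / 4 by norm_num] at h1
      refine h1.trans ?_
      exact mul_le_mul_of_nonneg_right (le_max_left _ _) (by positivity)
    refine ⟨1 / 4, 25, 6 * Real.log (max κ 1), by norm_num, by norm_num, by norm_num,
      by have := Real.log_nonneg (le_max_right κ 1); positivity, ?_⟩
    exact ineq_of_abc54 (le_max_right _ _) h' (by norm_num) hB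

end Pool.Agent.Results.MP_05f553_nt.SmallB
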