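import Pool.Agent.H78R2.Phil.Main

/-!
Philippon's conjecture on p-adic distances is equivalent to the weak abc conjecture.
-/

namespace Pool.Agent.Results.MP_05f553_nt.WeakAbc

open Pool.Agent.H78R2.Phil

/-- The statement of Q1 (the same as the frozen statement `S10895`). -/
def Philippon : Prop :=
  ∃ ε α β : ℝ, ∃ B : ℕ, 0 < ε ∧ ε < 1 / 2 ∧ 1 ≤ α ∧ 0 ≤ β ∧ 0 < B ∧
    ∀ x y : ℚ, x ≠ 0 → y ≠ 0 → x * y ^ B ≠ 1 → x * y ^ B + 1 ≠ 0 →
      -(∑ᶠ p ∈ {p : ℕ | p.Prime ∧ padicNorm p (x * y ^ B + 1) < 1},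
          Real.log ((padicNorm p (x * y ^ B + 1) : ℚ) : ℝ))
        ≤ (B : ℝ) * (α * Real.log (max |(x.num : ℝ)| (x.den : ℝ))
            + ε * Real.log (max |(y.num : ℝ)| (y.den : ℝ))
            + (α * (B : ℝ) + ε) *
                (β + ∑ᶠ p ∈ {p : ℕ | p.Prime ∧ padicNorm p (x * y ^ B + 1) < 1},
                  Real.log (p : ℝ)))

/-- The same inequality with `α = 1`, for every `ε > 0` and every large `B`. -/
def PhilipponStrong : Prop :=
  ∀ ε : ℝ, 0 < ε → ∃ β : ℝ, 0 ≤ β ∧ ∃ B₀ : ℕ, ∀ B : ℕ, B₀ ≤ B →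
    ∀ x y : ℚ, x ≠ 0 → y ≠ 0 → x * y ^ B ≠ 1 → x * y ^ B + 1 ≠ 0 →
      -(∑ᶠ p ∈ {p : ℕ | p.Prime ∧ padicNorm p (x * y ^ B + 1) < 1},
          Real.log ((padicNorm p (x * y ^ B + 1) : ℚ) : ℝ))
        ≤ (B : ℝ) * (Real.log (max |(x.num : ℝ)| (x.den : ℝ))
            + ε * Real.log (max |(y.num : ℝ)| (y.den : ℝ))
            + ((B : ℝ) + ε) *
                (β + ∑ᶠ p ∈ {p : ℕ | p.Prime ∧ padicNorm p (x * y ^ B + 1) < 1},
                  Real.log (p : ℝ)))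

/-- Weak abc: for some exponent `K`, `c ≤ κ R(abc)^K` for all coprime `a + b = c`, where `R(n)` is
the product of the primes dividing `n`. -/
def WeakAbc : Prop :=
  ∃ K κ : ℝ, ∀ a b c : ℕ, 0 < a → 0 < b → Nat.Coprime a b → a + b = c →
    (c : ℝ) ≤ κ * ((∏ p ∈ (a * b * c).primeFactors, p : ℕ) : ℝ) ^ K

theorem result : List.TFAE [Philippon, PhilipponStrong, WeakAbc] := by
  tfae_have 2 → 1 := by
    intro h
    obtain ⟨β, hβ, B₀, h⟩ := h (1 / 4) (by norm_num)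
    refine ⟨1 / 4, 1, β, max B₀ 1, by norm_num, by norm_num, le_rfl, hβ, by omega, ?_⟩
    intro x y hx hy h1 h2
    have := h (max B₀ 1) (le_max_left _ _) x y hx hy h1 h2
    rwa [one_mul, one_mul]
  tfae_have 1 → 3 := by
    rintro ⟨ε, α, β, B, hε, hε1, hα, hβ, hB, h⟩
    have h' := abc_of_ineq (ε := ε) (α := α) (β := β) hε (by linarith) (by linarith) hβ hB h
    exact ⟨_, _, h'⟩
  tfae_have 3 → 2 := by
    rintro ⟨K, κ, h⟩ ε hε
    have h' : AbcWith (max K 1) (max κ 1) := by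
      intro a b c ha hb hab hc
      refine (h a b c ha hb hab hc).trans ?_
      have hR : (1 : ℝ) ≤ (Pool.Agent.H78R2.Abc.rad (a * b * c) : ℝ) := by
        exact_mod_cast Pool.Agent.H78R2.Abc.rad_pos _
      have h1 : (Pool.Agent.H78R2.Abc.rad (a * b * c) : ℝ) ^ K ≤
          (Pool.Agent.H78R2.Abc.rad (a * b * c) : ℝ) ^ (max K 1) :=
        Real.rpow_le_rpow_of_exponent_le hR (le_max_left _ _)
      have h2 : κ ≤ max κ 1 := le_max_left _ _
      have h3 : (0 : ℝ) ≤ (Pool.Agent.H78R2.Abc.rad (a * b * c) : ℝ) ^ K := by positivity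
      have h4 : (0 : ℝ) ≤ max κ 1 := by positivity
      exact mul_le_mul h2 h1 h3 h4
    set ε' : ℝ := min ε 1 with hε'
    have hε'0 : 0 < ε' := lt_min hε one_pos
    refine ⟨Real.log (max κ 1), Real.log_nonneg (le_max_right _ _),
      Nat.ceil (2 * max K 1 / ε'), fun B hB x y hx hy h1 h2 => ?_⟩
    have hB' : 2 * max K 1 ≤ ε' * B := by
      have : 2 * max K 1 / ε' ≤ B := (Nat.le_ceil _).trans (by exact_mod_cast hB)
      rw [div_le_iff₀ hε'0] at this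
      linarith
    have key := ineq_of_abc (le_max_right K 1) (le_max_right κ 1) h' hε'0 (min_le_right _ _) hB'
      x y hx hy h1 h2
    refine key.trans ?_
    have hy0 := ht_nonneg y
    have hl : 0 ≤ Real.log (max κ 1) := Real.log_nonneg (le_max_right _ _)
    have hr : 0 ≤ ∑ᶠ p ∈ S (x * y ^ B + 1), Real.log (p : ℝ) := by
      rw [rad_sum h2]
      apply Real.log_nonneg
      exact_mod_cast Pool.Agent.H78R2.Abc.rad_pos _
    have hle : ε' ≤ ε := min_le_left _ _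
    have hB0 : (0 : ℝ) ≤ B := by positivity
    change _ ≤ (B : ℝ) * (ht x + ε * ht y + ((B : ℝ) + ε) *
      (Real.log (max κ 1) + ∑ᶠ p ∈ S (x * y ^ B + 1), Real.log (p : ℝ)))
    rw [one_mul, one_mul]
    gcongr
  tfae_finish

end Pool.Agent.Results.MP_05f553_nt.WeakAbc
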